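import Pool.Agent.Run7.h973.TG.Dv
import Pool.Agent.Run7.h437.TS.LAST

/-!
# Project TG: LAST (helper973, after the case `g = 1` of helper437)
-/

set_option autoImplicit false
set_option linter.all false

open Polynomial IsDedekindDomain
open scoped Classical

namespace Run7.h973.TG

open Pool.Agent.N874.PP (Ov Ev Sq1 S_CLS)
open Pool.Agent.N352.PJ (IsGen Crd Fam GoodR Ht dsc)
open Run7.h875.TS (chi cd irrD dg Tr S_TRS)
open Run7.h784.TG
open Run7.h437.TS (recip_pt abs_fac2 natDegree_prod_S trs expand_e chi_prod aeval_zero_iff)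
open UniqueFactorizationMonoid

theorem ringChar_ne {k : Type} [Field k] (h2 : (2 : k) ≠ 0) : ringChar k ≠ 2 := by
  intro h
  apply h2
  have h3 : ((2 : ℕ) : k) = 0 := by rw [ringChar.spec, h]
  exact_mod_cast h3

/-- The product of different monic irreducible polynomials prime to `d`. -/
theorem prod_good {k : Type} [Field k] (d : k[X]) (A : Finset k[X])
    (hA : ∀ P ∈ A, P.Monic ∧ Irreducible P ∧ ¬ P ∣ d) :
    Squarefree (∏ P ∈ A, P) ∧ IsCoprime (∏ P ∈ A, P) d := by
  constructor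
  · refine Finset.squarefree_prod_of_pairwise_isCoprime ?_ fun P hP => (hA P hP).2.1.squarefree
    intro P hP P' hP' hne
    refine IsCoprime.isRelPrime (((hA P hP).2.1.coprime_iff_not_dvd).2 fun h => hne ?_)
    exact eq_of_monic_of_associated (hA P hP).1 (hA P' hP').1
      ((hA P hP).2.1.associated_of_dvd (hA P' hP').2.1 h)
  · refine IsCoprime.prod_left fun P hP => ((hA P hP).2.1.coprime_iff_not_dvd).2 (hA P hP).2.2

theorem chi_mul' {F : Type} [Field F] [Fintype F] (x y : F) : chi (x * y) = chi x * chi y := by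
  unfold chi
  rw [map_mul]
  push_cast
  rfl

/-- The function which is the indicator of irreducibility at good points. -/
noncomputable def Jt {k F : Type} [Field k] [Field F] [Algebra k F] (g : ℕ) (f : k[X][X]) (t : F) :
    ℝ :=
  ∑ l ∈ Finset.Icc 1 (2 * g + 1), (-1 : ℝ) ^ (l + 1) / l *
    ∑ c ∈ Run7.h784.TG.cmp (2 * g + 1) l, ((FacR (evt (k := k) t) f c).ncard : ℝ)

/-- The number of all compositions. -/
noncomputable def nco (g : ℕ) : ℕ := ∑ l ∈ Finset.Icc 1 (2 * g + 1), (Run7.h784.TG.cmp (2 * g + 1) l).card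

theorem abs_coef (l : ℕ) (hl : 1 ≤ l) : |(-1 : ℝ) ^ (l + 1) / l| ≤ 1 := by
  rw [abs_div, abs_pow, abs_neg, abs_one, one_pow, Nat.abs_cast]
  rw [div_le_one (by positivity)]
  exact_mod_cast hl

/-- Weighted sums over the compositions. -/
theorem wsum (g : ℕ) (x : (l : ℕ) → (Fin l → ℕ) → ℝ) (E : ℝ)
    (h : ∀ l ∈ Finset.Icc 1 (2 * g + 1), ∀ c ∈ Run7.h784.TG.cmp (2 * g + 1) l, |x l c| ≤ E) :
    |∑ l ∈ Finset.Icc 1 (2 * g + 1), (-1 : ℝ) ^ (l + 1) / l * ∑ c ∈ Run7.h784.TG.cmp (2 * g + 1) l, x l c| ≤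
      nco g * E := by
  have h1 : (nco g : ℝ) * E = ∑ l ∈ Finset.Icc 1 (2 * g + 1), ((Run7.h784.TG.cmp (2 * g + 1) l).card : ℝ) * E := by
    unfold nco
    push_cast
    rw [Finset.sum_mul]
  rw [h1]
  refine (Finset.abs_sum_le_sum_abs _ _).trans (Finset.sum_le_sum fun l hl => ?_)
  rw [abs_mul]
  have h2 := abs_coef l (Finset.mem_Icc.1 hl).1
  have h3 : |∑ c ∈ Run7.h784.TG.cmp (2 * g + 1) l, x l c| ≤ ((Run7.h784.TG.cmp (2 * g + 1) l).card : ℝ) * E := by
    refine (Finset.abs_sum_le_sum_abs _ _).trans ?_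
    rw [← nsmul_eq_mul]
    exact Finset.sum_le_card_nsmul _ _ _ (h l hl)
  calc |(-1 : ℝ) ^ (l + 1) / l| * |∑ c ∈ Run7.h784.TG.cmp (2 * g + 1) l, x l c|
      ≤ 1 * (((Run7.h784.TG.cmp (2 * g + 1) l).card : ℝ) * E) := mul_le_mul h2 h3 (abs_nonneg _) zero_le_one
    _ = _ := one_mul _

theorem mem_cmp {m l : ℕ} {c : Fin l → ℕ} (hc : c ∈ Run7.h784.TG.cmp m l) : (∀ i, 1 ≤ c i) ∧ ∑ i, c i = m := by
  unfold Run7.h784.TG.cmp at hc
  rw [Finset.mem_filter, Fintype.mem_piFinset] at hc
  exact ⟨fun i => (Finset.mem_Icc.1 (hc.1 i)).1, hc.2⟩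

theorem Jt_bound {k F : Type} [Field k] [Field F] [Algebra k F] (g : ℕ) (f : k[X][X])
    (hf : f.Monic) (hd : f.natDegree = 2 * g + 1) (t : F) :
    |Jt g f t| ≤ nco g * (2 : ℝ) ^ ((2 * g + 1) * (2 * g + 1)) := by
  unfold Jt
  refine wsum g (fun l c => ((FacR (evt (k := k) t) f c).ncard : ℝ)) _ ?_
  intro l hl c hc
  rw [Nat.abs_cast]
  have h1 := (facR_bound (evt (k := k) t) f hf c).2
  rw [hd] at h1
  have h2 : (2 ^ (2 * g + 1)) ^ l ≤ 2 ^ ((2 * g + 1) * (2 * g + 1)) := by
    rw [← pow_mul]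
    refine Nat.pow_le_pow_right (by norm_num) ?_
    exact Nat.mul_le_mul_left _ (Finset.mem_Icc.1 hl).2
  exact_mod_cast h1.trans h2

/-- **LAST**. -/
theorem T_LAST (hW : P_W) (hDic : P_DIC) (hC : P_COMB) (hStk : P_STK) : P_LAST := by
  intro k _ _ g N r f hfm hfull
  obtain ⟨C₁, hW⟩ := hW k g N r f hfm hfull
  haveI := Fintype.ofFinite k
  have hk := ringChar_ne hfm.two
  have hfmon : f.Monic := hfm.fam.ht.mon
  have hfdeg : f.natDegree = 2 * g + 1 := hfm.fam.ht.deg
  have hd0 : dsc g f ≠ 0 := hfm.fam.sq.ne_zero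
  set dd : ℕ := (dsc g f).natDegree with hdd
  set B₀ : ℕ := nco g * 2 ^ ((2 * g + 1) * (2 * g + 1)) with hB₀
  refine ⟨1 / (2 * g + 1 : ℕ), nco g * C₁ + (1 + B₀) * (3 + dd), by positivity, ?_⟩
  intro K L O _ _ _ _ _ _ _ _ _ _ _ _ _ _ θ hgen S η hS m hm
  obtain ⟨F, _, _, _, hfr, hcd, hsum, hfew⟩ := trs k m hm
  set sP : k[X] → ℝ := fun P =>
    ((quadraticChar k (-1) ^ (P.natDegree * m) : ℤ) : ℝ) * (if η P then 1 else -1) with hsP
  set x : k[X] → F → ℝ := fun P t => chi (aeval t P) with hx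
  have hsP1 : ∀ P, |sP P| = 1 := by
    intro P
    rw [hsP]
    dsimp only
    have h1 : |((quadraticChar k (-1) ^ (P.natDegree * m) : ℤ) : ℝ)| = 1 := by
      push_cast
      rw [abs_pow]
      rcases quadraticChar_dichotomy (F := k) (a := -1) (by simp) with h | h <;> rw [h] <;> simp
    rw [abs_mul, h1]
    split_ifs <;> simp
  set E : ℝ := C₁ * (1 + dg S) * √(cd F) with hE
  have hdg0 : (0 : ℝ) ≤ (dg S : ℝ) := by positivity
  -- the main sum
  have hmain : |(∑ t : F, Jt g f t * ∏ P ∈ S, (sP P * x P t + 1)) - cd F * (1 / (2 * g + 1 : ℕ))| ≤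
      2 ^ S.card * (nco g * E) := by
    refine expand_e _ sP x (cd F * (1 / (2 * g + 1 : ℕ))) _ S (fun P => (hsP1 P).le) ?_ ?_
    · have h1 : (∑ t : F, Jt g f t) - cd F * (1 / (2 * g + 1 : ℕ)) =
          ∑ l ∈ Finset.Icc 1 (2 * g + 1), (-1 : ℝ) ^ (l + 1) / l *
            ∑ c ∈ Run7.h784.TG.cmp (2 * g + 1) l,
              ((∑ t : F, ((FacR (evt (k := k) t) f c).ncard : ℝ)) - cd F) := by
        have h2 := hC.2 (2 * g + 1) (by omega)
        rw [← h2, Finset.mul_sum]
        unfold Jt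
        rw [Finset.sum_comm, ← Finset.sum_sub_distrib]
        refine Finset.sum_congr rfl fun l _ => ?_
        rw [← Finset.mul_sum, Finset.sum_comm, Finset.sum_sub_distrib, Finset.sum_const,
          nsmul_eq_mul]
        ring
      rw [h1]
      refine wsum g _ _ ?_
      intro l hl c hc
      obtain ⟨hc1, hc2⟩ := mem_cmp hc
      obtain ⟨hW1, -, -⟩ := hW l c hc1 hc2
      refine (hW1 F).trans ?_
      rw [hE]
      refine mul_le_mul_of_nonneg_right ?_ (Real.sqrt_nonneg _)
      nlinarith [mul_nonneg (Nat.cast_nonneg C₁ : (0:ℝ) ≤ C₁) hdg0]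
    · intro A hA hA0
      have hAg := prod_good (dsc g f) A fun P hP => hS P (hA hP)
      have hApos : 0 < (∏ P ∈ A, P).natDegree := by
        obtain ⟨P, hP⟩ := Finset.nonempty_iff_ne_empty.2 hA0
        have h1 : P ∣ ∏ P ∈ A, P := Finset.dvd_prod_of_mem _ hP
        exact ((hS P (hA hP)).2.1.natDegree_pos).trans_le (natDegree_le_of_dvd h1 hAg.1.ne_zero)
      have h1 : (∑ t : F, Jt g f t * ∏ P ∈ A, x P t) =
          ∑ l ∈ Finset.Icc 1 (2 * g + 1), (-1 : ℝ) ^ (l + 1) / l *
            ∑ c ∈ Run7.h784.TG.cmp (2 * g + 1) l,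
              (∑ t : F, chi (aeval t (∏ P ∈ A, P)) * ((FacR (evt (k := k) t) f c).ncard : ℝ)) := by
        unfold Jt
        simp_rw [Finset.sum_mul]
        rw [Finset.sum_comm]
        refine Finset.sum_congr rfl fun l _ => ?_
        simp_rw [mul_assoc]
        rw [← Finset.mul_sum]
        congr 1
        simp_rw [Finset.sum_mul]
        rw [Finset.sum_comm]
        refine Finset.sum_congr rfl fun c _ => Finset.sum_congr rfl fun t _ => ?_
        rw [map_prod, chi_prod, mul_comm]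
      rw [h1]
      refine wsum g _ _ ?_
      intro l hl c hc
      obtain ⟨hc1, hc2⟩ := mem_cmp hc
      obtain ⟨-, hW2, -⟩ := hW l c hc1 hc2
      refine (hW2 (∏ P ∈ A, P) (Or.inr ⟨hAg.1, hAg.2, hApos⟩) F).trans ?_
      rw [hE]
      refine mul_le_mul_of_nonneg_right ?_ (Real.sqrt_nonneg _)
      refine mul_le_mul_of_nonneg_left ?_ (Nat.cast_nonneg _)
      have h3 : (((∏ P ∈ A, P).natDegree : ℕ) : ℝ) ≤ ((dg S : ℕ) : ℝ) := by
        exact_mod_cast natDegree_prod_S S A hA
      linarith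
  -- pointwise
  set cond : k[X] → Prop := fun Q => ¬ Q ∣ dsc g f ∧ nr O Q = 1 ∧ Q ∉ S ∧
          ∀ P ∈ S, (∃ z : k[X], P ∣ z ^ 2 - Q) ↔ η P with hcond
  set φ : k[X] → ℝ := fun Q => if cond Q then 1 else 0 with hφ
  set G : F → Prop := fun t => (minpoly k t).natDegree = m ∧
    aeval t (dsc g f) ≠ 0 ∧ ∀ P ∈ S, aeval t P ≠ 0 with hG
  have hJB : ∀ t : F, |Jt g f t| ≤ (B₀ : ℝ) := by
    intro t
    have h1 := Jt_bound g f hfmon hfdeg t
    rw [hB₀]
    push_cast
    exact h1
  have hPB : ∀ t : F, |∏ P ∈ S, ((sP P * x P t + 1) / 2)| ≤ 1 := by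
    intro t
    rw [Finset.abs_prod]
    refine Finset.prod_le_one (fun _ _ => abs_nonneg _) fun P _ => ?_
    exact abs_fac2 (hsP1 P).le (Run7.h437.TS.abs_chi_le _)
  have hJgood : ∀ t : F, aeval t (dsc g f) ≠ 0 →
      Jt g f t = if Irreducible (f.map (evt (k := k) t)) then (1 : ℝ) else 0 := by
    intro t ht
    obtain ⟨-, hsqf, -⟩ := hStk k F g N r f t hfm ht
    have h1 : (f.map (evt (k := k) t)).natDegree = 2 * g + 1 := by
      rw [hfmon.natDegree_map, hfdeg]
    rw [hC.1 F (f.map (evt (k := k) t)) (2 * g + 1) (hfmon.map _) hsqf h1 (by omega)]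
    rfl
  have hpt : ∀ t : F, Jt g f t * ∏ P ∈ S, ((sP P * x P t + 1) / 2) ≤
      (if (minpoly k t).natDegree = m then φ (minpoly k t) else 0) +
        (if G t then 0 else (B₀ : ℝ)) := by
    intro t
    by_cases hGt : G t
    · rw [if_pos hGt, add_zero, if_pos hGt.1]
      by_cases hc : cond (minpoly k t)
      · rw [hφ]
        dsimp only
        rw [if_pos hc]
        have h1 : |Jt g f t| ≤ 1 := by
          rw [hJgood t hGt.2.1]
          split_ifs <;> simp
        have h2 : |Jt g f t * ∏ P ∈ S, ((sP P * x P t + 1) / 2)| ≤ 1 := by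
          rw [abs_mul]
          exact mul_le_one₀ h1 (abs_nonneg _) (hPB t)
        exact (le_abs_self _).trans h2
      · rw [hφ]
        dsimp only
        rw [if_neg hc]
        apply le_of_eq
        by_contra hne
        apply hc
        rw [mul_eq_zero, not_or, Finset.prod_eq_zero_iff] at hne
        push Not at hne
        obtain ⟨hne1, hne2⟩ := hne
        obtain ⟨hdeg, hdsc, hPS⟩ := hGt
        have hnd : ¬ minpoly k t ∣ dsc g f := fun h => hdsc ((aeval_zero_iff t _).2 h)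
        refine ⟨hnd, ?_, ?_, ?_⟩
        · rw [hJgood t hdsc] at hne1
          have hirr : Irreducible (f.map (evt (k := k) t)) := by
            by_contra h
            exact hne1 (if_neg h)
          obtain ⟨h1, -⟩ := hDic k K L O g N r f θ hfm hgen F t (by rw [hdeg, hfr]) hnd
          rw [h1]
          unfold nf
          rw [normalizedFactors_irreducible hirr]
          rfl
        · intro h
          exact hPS _ h (minpoly.aeval k t)
        · intro P hP
          obtain ⟨hPm, hPi, -⟩ := hS P hP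
          have h1 := hne2 P hP
          have h2 := recip_pt hk t (by rw [hdeg, hfr]) hPm hPi (hPS P hP)
          rw [h2, hdeg]
          have h3 : sP P * x P t ≠ -1 := by
            intro h
            apply h1
            rw [h]
            norm_num
          rw [hsP, hx] at h3
          dsimp only at h3
          unfold chi at h3
          rcases quadraticChar_dichotomy (F := k) (a := -1) (by simp) with h | h <;>
            rcases quadraticChar_dichotomy (F := F) (a := aeval t P) (hPS P hP) with h' | h' <;>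
            rw [h, h'] at h3 <;> rw [h, h'] <;>
            rcases neg_one_pow_eq_or ℤ (P.natDegree * m) with h'' | h'' <;>
            (try rw [h''] at h3) <;> (try rw [h'']) <;>
            by_cases hη : η P <;> simp [hη] at h3 ⊢
    · rw [if_neg hGt]
      have h1 : (0 : ℝ) ≤ (if (minpoly k t).natDegree = m then φ (minpoly k t) else 0) := by
        split_ifs
        · rw [hφ]; dsimp only; split_ifs <;> norm_num
        · exact le_refl _
      have h2 : |Jt g f t * ∏ P ∈ S, ((sP P * x P t + 1) / 2)| ≤ B₀ := by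
        rw [abs_mul]
        calc |Jt g f t| * |∏ P ∈ S, ((sP P * x P t + 1) / 2)| ≤ B₀ * 1 :=
              mul_le_mul (hJB t) (hPB t) (abs_nonneg _) (Nat.cast_nonneg _)
          _ = B₀ := mul_one _
      have h3 := (le_abs_self _).trans h2
      linarith
  have hsum2 : ∑ t : F, Jt g f t * ∏ P ∈ S, ((sP P * x P t + 1) / 2) ≤
      (m : ℝ) * ∑ Q ∈ irrD k m, φ Q + ((Finset.univ.filter fun t : F => ¬ G t).card : ℝ) * B₀ := by
    refine (Finset.sum_le_sum fun t _ => hpt t).trans (le_of_eq ?_)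
    rw [Finset.sum_add_distrib, hsum φ, ← Finset.sum_filter]
    congr 1
    rw [Finset.sum_ite, Finset.sum_const_zero, zero_add, Finset.sum_const, nsmul_eq_mul]
  have hbad : ((Finset.univ.filter fun t : F => ¬ G t).card : ℝ) ≤ 2 * √(cd F) + dd + dg S := by
    have h1 : (Finset.univ.filter fun t : F => ¬ G t) ⊆
        (Finset.univ.filter fun t : F => (minpoly k t).natDegree ≠ m) ∪
        ((Finset.univ.filter fun t : F => aeval t (dsc g f) = 0) ∪
        (S.biUnion fun P => Finset.univ.filter fun t : F => aeval t P = 0)) := by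
      intro t ht
      rw [Finset.mem_filter] at ht
      rw [Finset.mem_union, Finset.mem_union, Finset.mem_filter, Finset.mem_filter,
        Finset.mem_biUnion]
      by_contra hcon
      push Not at hcon
      obtain ⟨h1, h2, h3⟩ := hcon
      apply ht.2
      refine ⟨h1 (Finset.mem_univ _), h2 (Finset.mem_univ _), fun P hP h => ?_⟩
      exact h3 P hP (by simp [h])
    have h2 := (Finset.card_le_card h1).trans ((Finset.card_union_le _ _).trans
      (add_le_add le_rfl ((Finset.card_union_le _ _).trans (add_le_add le_rfl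
        Finset.card_biUnion_le))))
    have h3 : (Finset.univ.filter fun t : F => aeval t (dsc g f) = 0).card ≤ dd :=
      Run7.h437.TS.card_zero_le hd0
    have h4 : ∑ P ∈ S, (Finset.univ.filter fun t : F => aeval t P = 0).card ≤ dg S :=
      Finset.sum_le_sum fun P hP => Run7.h437.TS.card_zero_le (hS P hP).1.ne_zero
    have h5 : ((Finset.univ.filter fun t : F => ¬ G t).card : ℝ) ≤
        ((Finset.univ.filter fun t : F => (minpoly k t).natDegree ≠ m).card : ℝ) + (dd + dg S) := by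
      exact_mod_cast h2.trans (add_le_add le_rfl (add_le_add h3 h4))
    linarith
  have hfac : ∑ t : F, Jt g f t * ∏ P ∈ S, ((sP P * x P t + 1) / 2) =
      (1 / 2) ^ S.card * ∑ t : F, Jt g f t * ∏ P ∈ S, (sP P * x P t + 1) := by
    rw [Finset.mul_sum]
    refine Finset.sum_congr rfl fun t _ => ?_
    rw [Finset.prod_div_distrib, Finset.prod_const, one_div_pow]
    ring
  have hφcard : ∑ Q ∈ irrD k m, φ Q = (((irrD k m).filter fun Q => cond Q).card : ℝ) := by
    rw [hφ]
    rw [Finset.sum_ite, Finset.sum_const_zero, add_zero, Finset.sum_const, nsmul_eq_mul, mul_one]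
  rw [hfac, hφcard] at hsum2
  suffices hsuf : (1 / (2 * g + 1 : ℕ) : ℝ) * (1 / 2) ^ S.card * (Nat.card k : ℝ) ^ m / m -
      ((nco g * C₁ + (1 + B₀) * (3 + dd) : ℕ) : ℝ) * (1 + dg S) *
        √((Nat.card k : ℝ) ^ m) ≤ (((irrD k m).filter fun Q => cond Q).card : ℝ) by
    convert hsuf
  set Nc : ℝ := (((irrD k m).filter fun Q => cond Q).card : ℝ) with hNc
  rw [← hcd]
  set s : ℝ := √(cd F) with hs
  have hs1 : 1 ≤ s := Run7.h437.TS.one_le_sqrt_cd
  set c3 : ℝ := (1 / (2 * g + 1 : ℕ) : ℝ) with hc3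
  set c2 : ℝ := (1 / 2) ^ S.card with hc2
  have hc3p : 0 < c3 := by positivity
  have hc2p : 0 < c2 := by positivity
  have hc22 : c2 * 2 ^ S.card = 1 := by
    rw [hc2, ← mul_pow]; norm_num
  have hmain2 := (abs_le.1 hmain).1
  have hm1 : (1 : ℝ) ≤ m := by exact_mod_cast hm
  have hdd0 : (0 : ℝ) ≤ (dd : ℝ) := Nat.cast_nonneg _
  have hB0 : (0 : ℝ) ≤ (B₀ : ℝ) := Nat.cast_nonneg _
  have hn0 : (0 : ℝ) ≤ (nco g : ℝ) := Nat.cast_nonneg _
  have hC0 : (0 : ℝ) ≤ (C₁ : ℝ) := Nat.cast_nonneg _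
  -- `m Nc ≥ c3 c2 cd F - error`
  have hkey : c3 * c2 * cd F - (nco g * C₁ + (1 + B₀) * (3 + dd)) * (1 + dg S) * s ≤ m * Nc := by
    have h1 : c2 * (cd F * c3 - 2 ^ S.card * (nco g * E)) ≤
        m * Nc + (2 * s + dd + dg S) * B₀ := by
      refine le_trans ?_ (hsum2.trans (add_le_add le_rfl (mul_le_mul_of_nonneg_right hbad hB0)))
      refine mul_le_mul_of_nonneg_left ?_ hc2p.le
      linarith
    have h2 : c2 * (2 ^ S.card * (nco g * E)) = nco g * C₁ * (1 + dg S) * s := by
      rw [← mul_assoc, hc22, one_mul, hE]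
      ring
    have h3 : (2 * s + dd + dg S) * B₀ ≤ (1 + B₀) * (3 + dd) * (1 + dg S) * s := by
      have h6 : (2 * s + dd + dg S : ℝ) ≤ (3 + dd) * (1 + dg S) * s := by
        nlinarith [mul_nonneg hdd0 (by linarith : (0:ℝ) ≤ s - 1),
          mul_nonneg hdg0 (by linarith : (0:ℝ) ≤ s - 1),
          mul_nonneg (mul_nonneg hdd0 hdg0) (by linarith : (0:ℝ) ≤ s),
          mul_nonneg hdg0 (by linarith : (0:ℝ) ≤ s)]
      have h7 : (0 : ℝ) ≤ (3 + dd) * (1 + dg S) * s := by positivity
      nlinarith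
    nlinarith
  have h1 : c3 * c2 * cd F / m ≤
      Nc + (nco g * C₁ + (1 + B₀) * (3 + dd)) * (1 + dg S) * s := by
    rw [div_le_iff₀ (by linarith)]
    have h2 : (0 : ℝ) ≤ (nco g * C₁ + (1 + B₀) * (3 + dd)) * (1 + dg S) * s := by
      positivity
    nlinarith
  push_cast
  push_cast at h1
  linarith

end Run7.h973.TG
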