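import Pool.Agent.Run7.h973.TG.Prm

/-!
# Project TG: DIC (helper973)
-/

set_option autoImplicit false
set_option linter.all false

open Polynomial IsDedekindDomain UniqueFactorizationMonoid
open scoped Classical

namespace Run7.h973.TG

open Run7.h784.TG
open Pool.Agent.N874.PP (Ov Ev Sq1)
open Pool.Agent.N352.PJ (IsGen Crd dsc S_INT)
open Pool.Agent.N765.PJ (ev ev_surj ev_ker crd_poly ev_CQ injO)
open Run7.h333.TS (surj_pt ker_pt)
open Run7.h875.TS (chi cd irrD dg Tr)

/-! ### Signs and subsets -/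

theorem sum_even {α : Type} (Ps : Finset α) (d : α → ℕ) (ε : α → ℝ) :
    ∑ A ∈ Ps.powerset.filter (fun A => Even (∑ p ∈ A, d p)), ∏ p ∈ A, ε p =
      (∏ p ∈ Ps, (1 + ε p) + ∏ p ∈ Ps, (1 + (-1) ^ (d p) * ε p)) / 2 := by
  rw [Finset.prod_one_add, Finset.prod_one_add, ← Finset.sum_add_distrib, Finset.sum_div,
    Finset.sum_filter]
  refine Finset.sum_congr rfl fun A _ => ?_
  rw [Finset.prod_mul_distrib, Finset.prod_pow_eq_pow_sum]
  split_ifs with h
  · rw [h.neg_one_pow]; ring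
  · rw [(Nat.not_even_iff_odd.1 h).neg_one_pow]; ring

theorem prod_sign {α : Type} (Ps : Finset α) (ε : α → ℝ) (hε : ∀ p ∈ Ps, ε p = 1 ∨ ε p = -1) :
    ∏ p ∈ Ps, ε p = (-1) ^ (Ps.filter fun p => ε p ≠ 1).card := by
  induction Ps using Finset.induction_on with
  | empty => simp
  | insert a s ha ih =>
    have ih' := ih fun p hp => hε p (Finset.mem_insert_of_mem hp)
    rw [Finset.prod_insert ha, ih', Finset.filter_insert]
    rcases hε a (Finset.mem_insert_self _ _) with h | h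
    · rw [if_neg (not_not.2 h), h, one_mul]
    · have hne : ε a ≠ 1 := by rw [h]; norm_num
      rw [if_pos hne, Finset.card_insert_of_notMem (by simp [ha]), h, pow_succ]
      ring

theorem sum_even_zero {α : Type} (Ps : Finset α) (d : α → ℕ) (ε : α → ℝ)
    (hε : ∀ p ∈ Ps, ε p = 1 ∨ ε p = -1) (hd : Odd (∑ p ∈ Ps, d p))
    (hev : Even (Ps.filter fun p => ε p ≠ 1).card) (hne : ∃ p ∈ Ps, ε p ≠ 1) :
    ∑ A ∈ Ps.powerset.filter (fun A => Even (∑ p ∈ A, d p)), ∏ p ∈ A, ε p = 0 := by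
  rw [sum_even]
  obtain ⟨p, hp, hp1⟩ := hne
  have h1 : ∏ p ∈ Ps, (1 + ε p) = 0 := by
    refine Finset.prod_eq_zero hp ?_
    rw [(hε p hp).resolve_left hp1]
    norm_num
  have h2 : ∏ p ∈ Ps, (1 + (-1) ^ (d p) * ε p) = 0 := by
    by_contra h0
    have h0 := Finset.prod_ne_zero_iff.1 h0
    have h3 : ∀ p ∈ Ps, ε p = (-1) ^ (d p) := by
      intro p hp
      have h4 := h0 p hp
      rcases hε p hp with h5 | h5 <;> rcases neg_one_pow_eq_or ℝ (d p) with h6 | h6 <;>
        rw [h5, h6] at h4 <;> rw [h5, h6] <;> norm_num at h4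
    have h4 : ∏ p ∈ Ps, ε p = -1 := by
      rw [Finset.prod_congr rfl h3, Finset.prod_pow_eq_pow_sum, hd.neg_one_pow]
    rw [prod_sign Ps ε hε, hev.neg_one_pow] at h4
    norm_num at h4
  rw [h1, h2]
  norm_num

theorem card_even {α : Type} (Ps : Finset α) (d : α → ℕ) (hd : Odd (∑ p ∈ Ps, d p)) :
    (Ps.powerset.filter (fun A => Even (∑ p ∈ A, d p))).card = 2 ^ (Ps.card - 1) := by
  have h1 := sum_even Ps d (fun _ => (1 : ℝ))
  simp only [Finset.prod_const_one, Finset.sum_const, nsmul_eq_mul, mul_one, Finset.prod_const]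
    at h1
  have h2 : ∏ p ∈ Ps, (1 + (-1 : ℝ) ^ (d p)) = 0 := by
    obtain ⟨p, hp, hp1⟩ : ∃ p ∈ Ps, Odd (d p) := by
      by_contra hcon
      push Not at hcon
      have : Even (∑ p ∈ Ps, d p) := Finset.even_sum _ fun p hp => Nat.not_odd_iff_even.1 (hcon p hp)
      exact (Nat.not_even_iff_odd.2 hd) this
    refine Finset.prod_eq_zero hp ?_
    rw [hp1.neg_one_pow]
    norm_num
  rw [h2, add_zero] at h1
  have hpos : 1 ≤ Ps.card := by
    rw [Nat.one_le_iff_ne_zero, Ne, Finset.card_eq_zero]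
    rintro rfl
    simp at hd
  have h3 : (2 : ℝ) ^ Ps.card = 2 ^ (Ps.card - 1) * 2 := by
    rw [← pow_succ]
    congr 1
    omega
  norm_num at h1
  rw [h3, mul_div_assoc, div_self (by norm_num), mul_one] at h1
  exact_mod_cast h1

/-! ### Divisors and subsets -/

section dv

variable {F : Type} [Field F]

/-- The set of the irreducible factors. -/
noncomputable def fs (P : F[X]) : Finset F[X] := (normalizedFactors P).toFinset

theorem mem_fs {P : F[X]} (hP : P.Monic) {p : F[X]} :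
    p ∈ fs P ↔ Irreducible p ∧ p.Monic ∧ p ∣ P := by
  unfold fs
  rw [Multiset.mem_toFinset, Polynomial.mem_normalizedFactors_iff hP.ne_zero]

theorem card_fs {P : F[X]} (hP : P.Monic) (hs : Squarefree P) :
    (fs P).card = Multiset.card (normalizedFactors P) := by
  unfold fs
  rw [Multiset.toFinset_card_of_nodup]
  exact (squarefree_iff_nodup_normalizedFactors hP.ne_zero).1 hs

theorem prod_fs {P : F[X]} (hP : P.Monic) (hs : Squarefree P) : ∏ p ∈ fs P, p = P := by
  conv_rhs => rw [← prod_nf hP]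
  unfold fs
  have h1 := (squarefree_iff_nodup_normalizedFactors hP.ne_zero).1 hs
  rw [Finset.prod_eq_multiset_prod, Multiset.toFinset_val, Multiset.dedup_eq_self.2 h1,
    Multiset.map_id']

theorem cop_fs {P : F[X]} (hP : P.Monic) : ∀ p ∈ fs P, ∀ q ∈ fs P, p ≠ q → IsCoprime p q := by
  intro p hp q hq hne
  rw [mem_fs hP] at hp hq
  refine (hp.1.coprime_iff_not_dvd).2 fun h => hne ?_
  exact eq_of_monic_of_associated hp.2.1 hq.2.1 (hp.1.associated_of_dvd hq.1 h)

theorem natDegree_sub {P : F[X]} (hP : P.Monic) {A : Finset F[X]} (hA : A ⊆ fs P) :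
    (∏ p ∈ A, p).natDegree = ∑ p ∈ A, p.natDegree :=
  natDegree_prod_of_monic _ _ fun p hp => ((mem_fs hP).1 (hA hp)).2.1

theorem inj_sub {P : F[X]} (hP : P.Monic) :
    Set.InjOn (fun A : Finset F[X] => ∏ p ∈ A, p) ((fs P).powerset : Set (Finset F[X])) := by
  intro A hA B hB hAB
  rw [Finset.mem_coe, Finset.mem_powerset] at hA hB
  have key : ∀ A ⊆ fs P, ∀ p ∈ fs P, p ∣ ∏ q ∈ A, q → p ∈ A := by
    intro A hA p hp hd
    obtain ⟨q, hq, hpq⟩ := (Prime.dvd_finsetProd_iff ((mem_fs hP).1 hp).1.prime _).1 hd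
    by_cases hne : p = q
    · rw [hne]; exact hq
    · exact absurd hpq (((mem_fs hP).1 hp).1.coprime_iff_not_dvd.1 (cop_fs hP p hp q (hA hq) hne))
  ext p
  constructor
  · intro hp
    refine key B hB p (hA hp) ?_
    have h1 : (∏ p ∈ A, p) = ∏ p ∈ B, p := hAB
    rw [← h1]
    exact Finset.dvd_prod_of_mem _ hp
  · intro hp
    refine key A hA p (hB hp) ?_
    have h1 : (∏ p ∈ A, p) = ∏ p ∈ B, p := hAB
    rw [h1]
    exact Finset.dvd_prod_of_mem _ hp

theorem img_sub {P : F[X]} (hP : P.Monic) (hs : Squarefree P) :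
    {a : F[X] | a.Monic ∧ a ∣ P ∧ Even a.natDegree} =
      (fun A : Finset F[X] => ∏ p ∈ A, p) ''
        (((fs P).powerset.filter (fun A => Even (∑ p ∈ A, p.natDegree)) : Finset (Finset F[X])) :
          Set (Finset F[X])) := by
  ext a
  constructor
  · rintro ⟨ha1, ha2, ha3⟩
    have hsa : Squarefree a := hs.squarefree_of_dvd ha2
    have hsub : fs a ⊆ fs P := by
      intro p hp
      rw [mem_fs ha1] at hp
      rw [mem_fs hP]
      exact ⟨hp.1, hp.2.1, hp.2.2.trans ha2⟩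
    refine ⟨fs a, ?_, prod_fs ha1 hsa⟩
    rw [Finset.mem_coe, Finset.mem_filter, Finset.mem_powerset]
    refine ⟨hsub, ?_⟩
    rw [← natDegree_sub hP hsub, prod_fs ha1 hsa]
    exact ha3
  · rintro ⟨A, hA, rfl⟩
    rw [Finset.mem_coe, Finset.mem_filter, Finset.mem_powerset] at hA
    refine ⟨monic_prod_of_monic _ _ fun p hp => ((mem_fs hP).1 (hA.1 hp)).2.1, ?_, ?_⟩
    · conv_rhs => rw [← prod_fs hP hs]
      exact Finset.prod_dvd_prod_of_subset _ _ _ hA.1
    · change Even (∏ p ∈ A, p).natDegree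
      rw [natDegree_sub hP hA.1]
      exact hA.2

end dv

/-- **DIC**. -/
theorem T_DIC (hq : P_LOCQ) : P_DIC := by
  intro k K L O _ _ _ _ _ _ _ _ _ _ _ _ _ _ _ _ g N r f θ hfm h F _ _ _ t ht hd
  have hI : S_INT := Pool.Agent.N769.PJ.int
  have hsq : Squarefree (dsc g f) := hfm.fam.sq
  haveI : Module.Finite k F := Module.Finite.of_finite
  have hint : IsIntegral k t := IsIntegral.of_finite k t
  have hQm : (minpoly k t).Monic := minpoly.monic hint
  have hQi : Irreducible (minpoly k t) := minpoly.irreducible hint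
  obtain ⟨-, -, -, hpar, -⟩ := hq k K L O g N r f θ hfm h (minpoly k t) hQm hQi hd
  obtain ⟨τ, hτ⟩ := Pool.Agent.N765.PJ.theta_ex (k := k) O h
  set P : F[X] := f.map (evt (k := k) t) with hP
  have hPm : P.Monic := h.mon.map _
  have hPs : Squarefree P := sqf_at h hd
  have hPd : P.natDegree = 2 * g + 1 := by rw [hP, h.mon.natDegree_map, h.deg]
  have hodd : Odd (∑ p ∈ fs P, p.natDegree) := by
    rw [← natDegree_sub hPm (Finset.Subset.refl _), prod_fs hPm hPs, hPd]
    exact ⟨g, rfl⟩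
  have hF2 : ringChar F ≠ 2 := by
    intro h0
    apply hfm.two
    apply (algebraMap k F).injective
    rw [map_ofNat, map_zero]
    have h1 := CharP.cast_eq_zero F (ringChar F)
    rw [h0] at h1
    exact_mod_cast h1
  -- the primes
  have hex : ∀ p : F[X], ∃ 𝔓 : HeightOneSpectrum O, p ∈ fs P →
      Ov (minpoly k t) 𝔓 ∧ Rl (k := k) O τ t p 𝔓 := by
    intro p
    by_cases hp : p ∈ fs P
    · obtain ⟨𝔓, h1, h2⟩ := ex_prime (K := K) (L := L) (O := O) hI h hsq hτ
        (p := p) (t := t) (Multiset.mem_toFinset.1 hp)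
      exact ⟨𝔓, fun _ => ⟨h1, h2⟩⟩
    · have hne : (fs P).Nonempty := by
        rw [Finset.nonempty_iff_ne_empty]
        intro h0
        rw [h0] at hodd
        simp at hodd
      obtain ⟨p', hp'⟩ := hne
      obtain ⟨𝔓, h1, h2⟩ := ex_prime (K := K) (L := L) (O := O) hI h hsq hτ
        (p := p') (t := t) (Multiset.mem_toFinset.1 hp')
      exact ⟨𝔓, fun h0 => absurd h0 hp⟩
  choose Pr hPr using hex
  have hinj : Set.InjOn Pr (fs P : Set F[X]) := by
    intro p hp p' hp' heq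
    have h1 := (hPr p hp).2
    have h2 := (hPr p' hp').2
    rw [← heq] at h2
    exact uniq_p ht ((mem_fs hPm).1 hp).2.1 ((mem_fs hPm).1 hp').2.1 h1 h2
  have hsurj : ∀ 𝔓 : HeightOneSpectrum O, Ov (minpoly k t) 𝔓 → ∃ p ∈ fs P, Pr p = 𝔓 := by
    intro 𝔓 hov
    obtain ⟨p, hp, hrl⟩ := ex_p (K := K) (L := L) h hτ ht hov
    have hp' : p ∈ fs P := Multiset.mem_toFinset.2 hp
    exact ⟨p, hp', uniq_prime (K := K) (L := L) hI h hsq hτ (hPr p hp').2 hrl⟩
  refine ⟨?_, ?_, ?_, ?_⟩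
  · unfold nr
    have h1 : {𝔓 : HeightOneSpectrum O | Ov (minpoly k t) 𝔓} = Pr '' (fs P : Set F[X]) := by
      ext 𝔓
      constructor
      · intro hov
        obtain ⟨p, hp, hp2⟩ := hsurj 𝔓 hov
        exact ⟨p, hp, hp2⟩
      · rintro ⟨p, hp, rfl⟩
        exact (hPr p hp).1
    rw [h1, Set.ncard_image_of_injOn hinj, Set.ncard_coe_finset, card_fs hPm hPs]
    rfl
  · change {a : F[X] | a.Monic ∧ a ∣ P ∧ Even a.natDegree}.Finite
    rw [img_sub hPm hPs]
    exact (Finset.finite_toSet _).image _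
  · change {a : F[X] | a.Monic ∧ a ∣ P ∧ Even a.natDegree}.ncard = _
    rw [img_sub hPm hPs, Set.ncard_image_of_injOn, Set.ncard_coe_finset, card_even _ _ hodd,
      card_fs hPm hPs]
    · rfl
    · refine (inj_sub hPm).mono ?_
      intro A hA
      rw [Finset.mem_coe, Finset.mem_filter] at hA
      exact hA.1
  intro α z hα hn hz hnv
  -- the polynomial of `α`
  set q : k[X][X] := ∑ i : Fin (2 * g + 1), C (z i) * X ^ (i : ℕ) with hqdef
  have hqmap : q.map (evt (k := k) t) = zp (evt (k := k) t) z := by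
    rw [hqdef, Polynomial.map_sum]
    unfold zp
    refine Finset.sum_congr rfl fun i _ => ?_
    rw [Polynomial.map_mul, Polynomial.map_pow, Polynomial.map_C, Polynomial.map_X]
  have hqα : algebraMap O L (ev τ q) = α := by
    rw [Pool.Agent.N765.PJ.ev_L hτ, hz, hqdef, eval₂_finset_sum]
    refine Finset.sum_congr rfl fun i _ => ?_
    rw [eval₂_mul, eval₂_C, eval₂_X_pow]
  set u : F[X] := zp (evt (k := k) t) z with hu
  have hnvA : ∀ A ⊆ fs P, nv (∏ p ∈ A, p) u = ∏ p ∈ A, nv p u := by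
    intro A hA
    exact nv_prod (fun p hp => ((mem_fs hPm).1 (hA hp)).2.1)
      (fun p hp q hq hne => cop_fs hPm p (hA hp) q (hA hq) hne) u
  have hndv : ∀ p ∈ fs P, ¬ p ∣ u := by
    intro p hp
    rw [← nv_ne_zero ((mem_fs hPm).1 hp).1]
    intro h0
    apply hnv
    rw [← prod_fs hPm hPs, hnvA _ (Finset.Subset.refl _)]
    exact Finset.prod_eq_zero hp h0
  have hcls : ∀ p ∈ fs P, (Pr p).valuation L α = 1 ∧ (Sq1 (Pr p) α ↔ chi (nv p u) = 1) := by
    intro p hp
    have h1 := sq1_rl (K := K) (L := L) (O := O) hI h hsq hτ ht (hPr p hp).2 (q := q)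
      (by rw [hqmap]; exact hndv p hp)
    rw [hqα, hqmap] at h1
    exact ⟨h1.1, h1.2.trans (chi_nv hF2 ((mem_fs hPm).1 hp).1 u (hndv p hp)).symm⟩
  have hsgn : ∀ p ∈ fs P, chi (nv p u) = 1 ∨ chi (nv p u) = -1 := by
    intro p hp
    have h1 : nv p u ≠ 0 := (nv_ne_zero ((mem_fs hPm).1 hp).1).2 (hndv p hp)
    unfold chi
    rcases quadraticChar_dichotomy h1 with h2 | h2 <;> rw [h2] <;> simp
  have hev : ∀ 𝔓 : HeightOneSpectrum O, Ov (minpoly k t) 𝔓 → Ev 𝔓 α := by
    intro 𝔓 hov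
    obtain ⟨p, hp, rfl⟩ := hsurj 𝔓 hov
    exact ⟨1, by rw [(hcls p hp).1, map_one, one_pow]⟩
  have hchiA : ∀ A ⊆ fs P, chi (nv (∏ p ∈ A, p) u) = ∏ p ∈ A, chi (nv p u) := by
    intro A hA
    rw [hnvA A hA]
    unfold chi
    rw [map_prod]
    push_cast
    rfl
  have hTr : Tr O (minpoly k t) α ↔ ∀ p ∈ fs P, chi (nv p u) = 1 := by
    constructor
    · intro hT p hp
      exact (hcls p hp).2.1 (hT _ (hPr p hp).1)
    · intro hT 𝔓 hov
      obtain ⟨p, hp, rfl⟩ := hsurj 𝔓 hov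
      exact (hcls p hp).2.2 (hT p hp)
  refine ⟨hev, ?_, ?_⟩
  · intro hT a ha
    rw [hTr] at hT
    change a ∈ {a : F[X] | a.Monic ∧ a ∣ P ∧ Even a.natDegree} at ha
    rw [img_sub hPm hPs] at ha
    obtain ⟨A, hA, rfl⟩ := ha
    rw [Finset.mem_coe, Finset.mem_filter, Finset.mem_powerset] at hA
    change chi (nv (∏ p ∈ A, p) u) = 1
    rw [hchiA A hA.1]
    exact Finset.prod_eq_one fun p hp => hT p (hA.1 hp)
  · intro hT
    rw [hTr] at hT
    push Not at hT
    change ∑ᶠ a ∈ {a : F[X] | a.Monic ∧ a ∣ P ∧ Even a.natDegree}, chi (nv a u) = 0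
    rw [img_sub hPm hPs, finsum_mem_image ((inj_sub hPm).mono (by
      intro A hA
      rw [Finset.mem_coe, Finset.mem_filter] at hA
      exact hA.1)), finsum_mem_coe_finset]
    have h1 : ∑ A ∈ (fs P).powerset.filter (fun A => Even (∑ p ∈ A, p.natDegree)),
        chi (nv (∏ p ∈ A, p) u) =
        ∑ A ∈ (fs P).powerset.filter (fun A => Even (∑ p ∈ A, p.natDegree)),
          ∏ p ∈ A, chi (nv p u) := by
      refine Finset.sum_congr rfl fun A hA => ?_
      rw [Finset.mem_filter, Finset.mem_powerset] at hA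
      exact hchiA A hA.1
    rw [h1]
    refine sum_even_zero (fs P) natDegree (fun p => chi (nv p u)) hsgn hodd ?_ hT
    have h2 := hpar α hα hn hev
    have h3 : {𝔓 : HeightOneSpectrum O | Ov (minpoly k t) 𝔓 ∧ ¬ Sq1 𝔓 α} =
        Pr '' (((fs P).filter fun p => chi (nv p u) ≠ 1 : Finset F[X]) : Set F[X]) := by
      ext 𝔓
      constructor
      · rintro ⟨hov, hns⟩
        obtain ⟨p, hp, rfl⟩ := hsurj 𝔓 hov
        refine ⟨p, ?_, rfl⟩
        rw [Finset.mem_coe, Finset.mem_filter]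
        exact ⟨hp, fun h0 => hns ((hcls p hp).2.2 h0)⟩
      · rintro ⟨p, hp, rfl⟩
        rw [Finset.mem_coe, Finset.mem_filter] at hp
        exact ⟨(hPr p hp.1).1, fun h0 => hp.2 ((hcls p hp.1).2.1 h0)⟩
    rw [h3, Set.ncard_image_of_injOn, Set.ncard_coe_finset] at h2
    · exact h2
    · refine hinj.mono ?_
      intro p hp
      rw [Finset.mem_coe, Finset.mem_filter] at hp
      exact hp.1

end Run7.h973.TG
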