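import Pool.Agent.Run7.h784.TG.StmA

/-!
# Project TG: monic divisors (helper973)
-/

set_option autoImplicit false
set_option linter.all false

open Polynomial
open scoped Classical

namespace Run7.h973.TG

open UniqueFactorizationMonoid

/-- The monic divisor is the product of its normalized factors. -/
theorem prod_nf {F : Type} [Field F] {a : F[X]} (ha : a.Monic) : (normalizedFactors a).prod = a := by
  have h1 : Associated (normalizedFactors a).prod a := prod_normalizedFactors ha.ne_zero
  refine eq_of_monic_of_associated ?_ ha h1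
  have h2 := monic_multiset_prod_of_monic (normalizedFactors a) (fun p : F[X] => p) (by
    intro p hp
    exact ((Polynomial.mem_normalizedFactors_iff ha.ne_zero).1 hp).2.1)
  simpa using h2

/-- The monic divisors of `p`. -/
def mdv {F : Type} [Field F] (p : F[X]) : Set F[X] := {a | a.Monic ∧ a ∣ p}

theorem mdv_fin {F : Type} [Field F] {p : F[X]} (hp : p ≠ 0) :
    (mdv p).Finite ∧ (mdv p).ncard ≤ 2 ^ (Multiset.card (normalizedFactors p)) := by
  have h1 : Set.InjOn (fun a : F[X] => normalizedFactors a) (mdv p) := by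
    intro a ha b hb hab
    rw [← prod_nf ha.1, ← prod_nf hb.1]
    exact congrArg _ hab
  have h2 : ∀ a ∈ mdv p, normalizedFactors a ∈
      ((normalizedFactors p).powerset.toFinset : Set (Multiset F[X])) := by
    intro a ha
    rw [Finset.mem_coe, Multiset.mem_toFinset, Multiset.mem_powerset]
    exact (dvd_iff_normalizedFactors_le_normalizedFactors ha.1.ne_zero hp).1 ha.2
  have h3 : (mdv p).Finite := Set.Finite.of_injOn h2 h1 (Finset.finite_toSet _)
  refine ⟨h3, ?_⟩
  have h4 := Set.ncard_le_ncard_of_injOn _ h2 h1 (Finset.finite_toSet _)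
  rw [Set.ncard_coe_finset] at h4
  refine h4.trans ((Multiset.toFinset_card_le _).trans (le_of_eq ?_))
  exact Multiset.card_powerset _

theorem card_nf_le {F : Type} [Field F] {p : F[X]} (hp : p.Monic) :
    Multiset.card (normalizedFactors p) ≤ p.natDegree := by
  have h1 := prod_nf hp
  have h2 : ∀ s : Multiset F[X], (∀ q ∈ s, q.Monic ∧ 1 ≤ q.natDegree) →
      Multiset.card s ≤ s.prod.natDegree ∧ s.prod.Monic := by
    intro s
    induction s using Multiset.induction_on with
    | empty => intro _; simp
    | cons a s ih =>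
      intro h
      obtain ⟨h3, h4⟩ := ih fun q hq => h q (Multiset.mem_cons_of_mem hq)
      obtain ⟨h5, h6⟩ := h a (Multiset.mem_cons_self _ _)
      rw [Multiset.card_cons, Multiset.prod_cons, h5.natDegree_mul h4]
      exact ⟨by omega, h5.mul h4⟩
  have h3 := (h2 (normalizedFactors p) (by
    intro q hq
    obtain ⟨h4, h5, -⟩ := (Polynomial.mem_normalizedFactors_iff hp.ne_zero).1 hq
    exact ⟨h5, h4.natDegree_pos⟩)).1
  rwa [h1] at h3

/-- The bound for the number of factorisations. -/
theorem facR_bound {k W : Type} [Field k] [Field W] (φ : k[X] →+* W) (f : k[X][X]) (hf : f.Monic)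
    {l : ℕ} (c : Fin l → ℕ) :
    (Run7.h784.TG.FacR φ f c).Finite ∧
      (Run7.h784.TG.FacR φ f c).ncard ≤ (2 ^ f.natDegree) ^ l := by
  have hp : (f.map φ).Monic := hf.map φ
  obtain ⟨h1, h2⟩ := mdv_fin hp.ne_zero
  have h3 : Run7.h784.TG.FacR φ f c ⊆ Set.pi Set.univ (fun _ : Fin l => mdv (f.map φ)) := by
    intro a ha i _
    obtain ⟨ha1, ha2⟩ := ha
    refine ⟨(ha1 i).1, ?_⟩
    rw [← ha2]
    exact Finset.dvd_prod_of_mem _ (Finset.mem_univ i)
  have h4 : (Set.pi Set.univ (fun _ : Fin l => mdv (f.map φ))).Finite := Set.Finite.pi fun _ => h1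
  refine ⟨h4.subset h3, ?_⟩
  have h5 := Set.ncard_le_ncard h3 h4
  refine h5.trans ?_
  have h6 : (Set.pi Set.univ (fun _ : Fin l => mdv (f.map φ))) =
      ((Fintype.piFinset fun _ : Fin l => h1.toFinset : Finset (Fin l → W[X])) : Set _) := by
    rw [Fintype.coe_piFinset]
    simp
  rw [h6, Set.ncard_coe_finset, Fintype.card_piFinset, Finset.prod_const, Finset.card_univ,
    Fintype.card_fin]
  refine Nat.pow_le_pow_left ?_ _
  rw [← Set.ncard_eq_toFinset_card _ h1]
  refine h2.trans ?_
  refine Nat.pow_le_pow_right (by norm_num) ?_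
  refine (card_nf_le hp).trans ?_
  exact natDegree_map_le

end Run7.h973.TG
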