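import Pool.Agent.Run7.h973.TG.Dv

/-!
# Project TG: norms (helper973)
-/

set_option autoImplicit false
set_option linter.all false

open Polynomial
open scoped Classical

namespace Run7.h973.TG

open Run7.h784.TG

section nv

variable {W : Type} [Field W]

theorem finrank_ad (a : W[X]) : Module.finrank W (AdjoinRoot a) = a.natDegree :=
  finrank_quotient_span_eq_natDegree

theorem finite_ad {a : W[X]} (ha : a ≠ 0) : Module.Finite W (AdjoinRoot a) :=
  Module.Finite.of_basis (AdjoinRoot.powerBasis ha).basis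

theorem ah_mk (a b : W[X]) (h : b ∣ a) (u : W[X]) :
    AdjoinRoot.algHomOfDvd W a b h (AdjoinRoot.mk a u) = AdjoinRoot.mk b u := by
  have h1 : (AdjoinRoot.algHomOfDvd W a b h).toRingHom.comp (AdjoinRoot.mk a) = AdjoinRoot.mk b := by
    apply Polynomial.ringHom_ext
    · intro c
      simp only [RingHom.comp_apply, AdjoinRoot.mk_C]
      exact (AdjoinRoot.algHomOfDvd W a b h).commutes c
    · simp only [RingHom.comp_apply, AdjoinRoot.mk_X]
      exact AdjoinRoot.algHomOfDvd_root a b h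
  exact RingHom.congr_fun h1 u

theorem nv_mul {a b : W[X]} (ha : a ≠ 0) (hb : b ≠ 0) (hab : IsCoprime a b) (u : W[X]) :
    nv (a * b) u = nv a u * nv b u := by
  haveI := finite_ad ha
  haveI := finite_ad hb
  haveI := finite_ad (mul_ne_zero ha hb)
  set ψ : AdjoinRoot (a * b) →ₐ[W] AdjoinRoot a × AdjoinRoot b :=
    (AdjoinRoot.algHomOfDvd W (a * b) a (dvd_mul_right a b)).prod
      (AdjoinRoot.algHomOfDvd W (a * b) b (dvd_mul_left b a)) with hψ
  have hmk : ∀ v : W[X], ψ (AdjoinRoot.mk (a * b) v) = (AdjoinRoot.mk a v, AdjoinRoot.mk b v) := by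
    intro v
    rw [hψ, AlgHom.prod_apply, ah_mk, ah_mk]
  have hinj : Function.Injective ψ.toLinearMap := by
    rw [← LinearMap.ker_eq_bot, LinearMap.ker_eq_bot']
    intro x hx
    obtain ⟨v, rfl⟩ := AdjoinRoot.mk_surjective x
    have h1 : (AdjoinRoot.mk a v, AdjoinRoot.mk b v) = (0, 0) := by
      rw [← hmk]
      exact hx
    rw [Prod.mk.injEq, AdjoinRoot.mk_eq_zero, AdjoinRoot.mk_eq_zero] at h1
    rw [AdjoinRoot.mk_eq_zero]
    exact hab.mul_dvd h1.1 h1.2
  have hrk : Module.finrank W (AdjoinRoot (a * b)) = Module.finrank W (AdjoinRoot a × AdjoinRoot b) := by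
    rw [Module.finrank_prod, finrank_ad, finrank_ad, finrank_ad, natDegree_mul ha hb]
  set e : AdjoinRoot (a * b) ≃ₗ[W] AdjoinRoot a × AdjoinRoot b :=
    LinearEquiv.ofInjectiveOfFinrankEq ψ.toLinearMap hinj hrk with he
  have hea : ∀ x, e x = ψ x := fun x => rfl
  unfold nv
  rw [Algebra.norm_apply, Algebra.norm_apply, Algebra.norm_apply, ← LinearMap.det_prodMap,
    ← LinearMap.det_conj _ e]
  congr 1
  apply LinearMap.ext
  intro x
  obtain ⟨y, rfl⟩ := e.surjective x
  rw [LinearMap.comp_apply, LinearMap.comp_apply, LinearEquiv.coe_coe, LinearEquiv.coe_coe,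
    LinearEquiv.symm_apply_apply]
  obtain ⟨v, rfl⟩ := AdjoinRoot.mk_surjective y
  have e1 : (Algebra.lmul W (AdjoinRoot (a * b)) (AdjoinRoot.mk (a * b) u))
      (AdjoinRoot.mk (a * b) v) = AdjoinRoot.mk (a * b) (u * v) := by
    rw [map_mul]; rfl
  rw [e1, hea, hea, hmk, hmk, LinearMap.prodMap_apply, map_mul, map_mul]
  rfl

theorem nv_one (u : W[X]) : nv 1 u = 1 := by
  unfold nv
  haveI : Subsingleton (AdjoinRoot (1 : W[X])) := by
    constructor
    intro x y
    obtain ⟨v, rfl⟩ := AdjoinRoot.mk_surjective x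
    obtain ⟨w, rfl⟩ := AdjoinRoot.mk_surjective y
    rw [AdjoinRoot.mk_eq_mk]
    exact one_dvd _
  rw [Algebra.norm_apply]
  exact LinearMap.det_eq_one_of_subsingleton _

theorem nv_prod {A : Finset W[X]} (hm : ∀ p ∈ A, p.Monic)
    (hA : ∀ p ∈ A, ∀ q ∈ A, p ≠ q → IsCoprime p q) (u : W[X]) :
    nv (∏ p ∈ A, p) u = ∏ p ∈ A, nv p u := by
  induction A using Finset.induction_on with
  | empty => rw [Finset.prod_empty, Finset.prod_empty, nv_one]
  | insert p A hp ih =>
    rw [Finset.prod_insert hp, Finset.prod_insert hp, nv_mul, ih]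
    · exact fun q hq => hm q (Finset.mem_insert_of_mem hq)
    · exact fun q hq q' hq' => hA q (Finset.mem_insert_of_mem hq) q' (Finset.mem_insert_of_mem hq')
    · exact (hm p (Finset.mem_insert_self _ _)).ne_zero
    · exact (monic_prod_of_monic _ _ fun q hq => hm q (Finset.mem_insert_of_mem hq)).ne_zero
    · refine IsCoprime.prod_right fun q hq => ?_
      refine hA p (Finset.mem_insert_self _ _) q (Finset.mem_insert_of_mem hq) ?_
      rintro rfl
      exact hp hq

end nv

section fin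

/-- An element of a finite field is a square iff its norm is. -/
theorem sq_iff_norm {F E : Type} [Field F] [Finite F] [Field E] [Algebra F E] [Finite E]
    (hF : ringChar F ≠ 2) {x : E} (hx : x ≠ 0) :
    IsSquare x ↔ IsSquare (Algebra.norm F x) := by
  haveI := Fintype.ofFinite F
  haveI := Fintype.ofFinite E
  have hE : ringChar E ≠ 2 := by
    rwa [← Algebra.ringChar_eq F E]
  have hN : Algebra.norm F x ≠ 0 := Algebra.norm_ne_zero_iff.2 hx
  rw [FiniteField.isSquare_iff hE hx, FiniteField.isSquare_iff hF hN]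
  have h1 := FiniteField.algebraMap_norm_eq_pow (K := F) (K' := E) (x := x)
  rw [Nat.card_eq_fintype_card, Nat.card_eq_fintype_card] at h1
  have hoF := FiniteField.odd_card_of_char_ne_two hF
  have hoE := FiniteField.odd_card_of_char_ne_two hE
  have hdvd : Fintype.card F - 1 ∣ Fintype.card E - 1 := by
    rw [Module.card_eq_pow_finrank (K := F) (V := E)]
    simpa using Nat.sub_dvd_pow_sub_pow (Fintype.card F) 1 (Module.finrank F E)
  obtain ⟨c, hc⟩ := hdvd
  have hF1 : 0 < Fintype.card F - 1 := by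
    have := Fintype.one_lt_card (α := F)
    omega
  have h2 : (Fintype.card E - 1) / (Fintype.card F - 1) = c := by
    rw [hc, Nat.mul_div_cancel_left _ hF1]
  have h3 : Fintype.card E / 2 = c * (Fintype.card F / 2) := by
    have e1 : Fintype.card F - 1 = 2 * (Fintype.card F / 2) := by omega
    have e2 : Fintype.card E - 1 = 2 * (Fintype.card E / 2) := by omega
    rw [e1, e2] at hc
    have : 2 * (Fintype.card E / 2) = 2 * (c * (Fintype.card F / 2)) := by
      rw [hc]; ring
    omega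
  rw [h2] at h1
  rw [h3, pow_mul, ← h1, ← map_pow]
  constructor
  · intro h
    apply (algebraMap F E).injective
    rw [h, map_one]
  · intro h
    rw [h, map_one]

theorem chi_nv {F : Type} [Field F] [Fintype F] (hF : ringChar F ≠ 2) {p : F[X]}
    (hp : Irreducible p) (u : F[X]) (hu : ¬ p ∣ u) :
    Run7.h875.TS.chi (nv p u) = 1 ↔ ∃ s : F[X], p ∣ u - s ^ 2 := by
  haveI : Fact (Irreducible p) := ⟨hp⟩
  haveI := finite_ad hp.ne_zero
  haveI : Finite (AdjoinRoot p) := Module.finite_of_finite F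
  have hx : AdjoinRoot.mk p u ≠ 0 := fun h => hu (AdjoinRoot.mk_eq_zero.1 h)
  have hN : Algebra.norm F (AdjoinRoot.mk p u) ≠ 0 := Algebra.norm_ne_zero_iff.2 hx
  have h1 : Run7.h875.TS.chi (nv p u) = 1 ↔ IsSquare (nv p u) := by
    unfold Run7.h875.TS.chi
    rw [← quadraticChar_one_iff_isSquare (F := F) (a := nv p u) hN]
    exact_mod_cast Iff.rfl
  rw [h1]
  unfold nv
  rw [← sq_iff_norm hF hx]
  constructor
  · rintro ⟨y, hy⟩
    obtain ⟨s, rfl⟩ := AdjoinRoot.mk_surjective y
    refine ⟨s, ?_⟩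
    rw [← map_mul, AdjoinRoot.mk_eq_mk] at hy
    rwa [sq]
  · rintro ⟨s, hs⟩
    refine ⟨AdjoinRoot.mk p s, ?_⟩
    rw [← map_mul, AdjoinRoot.mk_eq_mk]
    rwa [sq] at hs

theorem nv_ne_zero {F : Type} [Field F] {p : F[X]} (hp : Irreducible p) {u : F[X]} :
    nv p u ≠ 0 ↔ ¬ p ∣ u := by
  haveI : Fact (Irreducible p) := ⟨hp⟩
  haveI := finite_ad hp.ne_zero
  unfold nv
  rw [Algebra.norm_ne_zero_iff, Ne, AdjoinRoot.mk_eq_zero]

end fin

end Run7.h973.TG
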