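import Pool.Agent.Run7.h973.TG.NV
import Pool.Agent.Run7.h333.TS.DicB
import Pool.Agent.N765.PJ.Base
import Pool.Agent.N769.PJ.Int

/-!
# Project TG: the primes over `Q` and the factors at `t` (helper973)
-/

set_option autoImplicit false
set_option linter.all false

open Polynomial IsDedekindDomain UniqueFactorizationMonoid
open scoped Classical

namespace Run7.h973.TG

open Run7.h784.TG
open Pool.Agent.N874.PP (Ov Ev Sq1)
open Pool.Agent.N352.PJ (IsGen Crd dsc S_INT)
open Pool.Agent.N765.PJ (ev ev_surj ev_ker crd_poly ev_CQ injO)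
open Run7.h333.TS (surj_pt ker_pt)

section prm

variable {k K L O : Type} [Field k] [Field K] [Algebra k[X] K] [IsFractionRing k[X] K]
  [Field L] [Algebra K L] [Algebra k[X] L] [IsScalarTower k[X] K L] [CommRing O]
  [IsDedekindDomain O] [Algebra O L] [IsFractionRing O L] [Algebra k[X] O]
  [IsScalarTower k[X] O L] [IsIntegralClosure O k[X] L] {g : ℕ} {f : k[X][X]} {θ : L}
  {F : Type} [Field F] [Fintype F] [Algebra k F] {t : F}

theorem evt_apply (t : F) (c : k[X]) : evt (k := k) t c = aeval t c := rfl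

/-- The prime `𝔓` belongs to the factor `p`. -/
def Rl (O : Type) [CommRing O] [IsDedekindDomain O] [Algebra k[X] O] (τ : O) (t : F) (p : F[X])
    (𝔓 : HeightOneSpectrum O) : Prop :=
  ∀ q : k[X][X], ev τ q ∈ 𝔓.asIdeal ↔ p ∣ q.map (evt (k := k) t)

theorem map_evt_surj (ht : (minpoly k t).natDegree = Module.finrank k F) :
    Function.Surjective (Polynomial.map (evt (k := k) t)) :=
  Polynomial.map_surjective _ (surj_pt ht)

theorem mem_of_map_zero {τ : O} {𝔓 : HeightOneSpectrum O} (hov : Ov (minpoly k t) 𝔓)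
    {q : k[X][X]} (hq : q.map (evt (k := k) t) = 0) : ev τ q ∈ 𝔓.asIdeal := by
  have h1 : C (minpoly k t) ∣ q := by
    rw [C_dvd_iff_dvd_coeff]
    intro i
    have h2 := congrArg (fun p => coeff p i) hq
    simp only [coeff_map, coeff_zero] at h2
    exact (ker_pt t _).1 h2
  obtain ⟨q', rfl⟩ := h1
  rw [ev_CQ]
  exact Ideal.mul_mem_right _ _ hov

/-- Every prime over `Q` belongs to a factor. -/
theorem ex_p (h : IsGen g K f θ) {τ : O} (hτ : algebraMap O L τ = θ)
    (ht : (minpoly k t).natDegree = Module.finrank k F) {𝔓 : HeightOneSpectrum O}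
    (hov : Ov (minpoly k t) 𝔓) :
    ∃ p ∈ normalizedFactors (f.map (evt (k := k) t)), Rl (k := k) O τ t p 𝔓 := by
  have hfm : (f.map (evt (k := k) t)).Monic := h.mon.map _
  choose lf hlf using map_evt_surj (k := k) ht
  have hprod : (((normalizedFactors (f.map (evt (k := k) t))).map lf).prod - f).map
      (evt (k := k) t) = 0 := by
    rw [Polynomial.map_sub, Polynomial.map_multiset_prod, Multiset.map_map]
    have : (Multiset.map (Polynomial.map (evt (k := k) t) ∘ lf)
        (normalizedFactors (f.map (evt (k := k) t)))) =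
        normalizedFactors (f.map (evt (k := k) t)) := by
      conv_rhs => rw [← Multiset.map_id (normalizedFactors (f.map (evt (k := k) t)))]
      refine Multiset.map_congr rfl fun p _ => ?_
      exact hlf p
    rw [this, prod_nf hfm, sub_self]
  have h1 : ev τ ((normalizedFactors (f.map (evt (k := k) t))).map lf).prod ∈ 𝔓.asIdeal := by
    have h2 := mem_of_map_zero (τ := τ) hov hprod
    rw [map_sub, Pool.Agent.N765.PJ.ev_f (K := K) h hτ, sub_zero] at h2
    exact h2
  rw [map_multiset_prod, Multiset.map_map] at h1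
  obtain ⟨y, hy, hym⟩ := (Ideal.IsPrime.multiset_prod_mem_iff_exists_mem 𝔓.isPrime _).1 h1
  obtain ⟨p, hp, rfl⟩ := Multiset.mem_map.1 hy
  have hpm : ev τ (lf p) ∈ 𝔓.asIdeal := hym
  refine ⟨p, hp, ?_⟩
  obtain ⟨hpi, hpmon, hpd⟩ := (Polynomial.mem_normalizedFactors_iff hfm.ne_zero).1 hp
  have key : ∀ q : k[X][X], p ∣ q.map (evt (k := k) t) → ev τ q ∈ 𝔓.asIdeal := by
    rintro q ⟨r, hr⟩
    have h3 : (q - lf p * lf r).map (evt (k := k) t) = 0 := by
      rw [Polynomial.map_sub, Polynomial.map_mul, hlf, hlf, hr, sub_self]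
    have h4 := mem_of_map_zero (τ := τ) hov h3
    rw [map_sub, map_mul] at h4
    have h5 : ev τ q = (ev τ q - ev τ (lf p) * ev τ (lf r)) + ev τ (lf p) * ev τ (lf r) := by ring
    rw [h5]
    exact Ideal.add_mem _ h4 (Ideal.mul_mem_right _ _ hpm)
  intro q
  refine ⟨fun hq => ?_, key q⟩
  by_contra hnd
  obtain ⟨a, b, hab⟩ : IsCoprime p (q.map (evt (k := k) t)) := (hpi.coprime_iff_not_dvd).2 hnd
  have h3 : (lf a * lf p + lf b * q - 1).map (evt (k := k) t) = 0 := by
    rw [Polynomial.map_sub, Polynomial.map_add, Polynomial.map_mul, Polynomial.map_mul, hlf, hlf,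
      hlf, Polynomial.map_one, hab, sub_self]
  have h4 := mem_of_map_zero (τ := τ) hov h3
  rw [map_sub, map_add, map_mul, map_mul, map_one] at h4
  have h5 : (1 : O) = (ev τ (lf a) * ev τ (lf p) + ev τ (lf b) * ev τ q) -
      (ev τ (lf a) * ev τ (lf p) + ev τ (lf b) * ev τ q - 1) := by ring
  apply 𝔓.isPrime.ne_top
  rw [Ideal.eq_top_iff_one, h5]
  exact Ideal.sub_mem _ (Ideal.add_mem _ (Ideal.mul_mem_left _ _ hpm)
    (Ideal.mul_mem_left _ _ hq)) h4

/-- the map to `AdjoinRoot p` for a factor `p` of `f` at `t` -/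
theorem ex_psiF (hI : S_INT) (h : IsGen g K f θ) (hsq : Squarefree (dsc g f)) {τ : O}
    (hτ : algebraMap O L τ = θ) (p : F[X]) (hp : p ∣ f.map (evt (k := k) t)) :
    ∃ ψ : O →+* AdjoinRoot p,
      ∀ q : k[X][X], ψ (ev τ q) = AdjoinRoot.mk p (q.map (evt (k := k) t)) := by
  have hk : RingHom.ker (ev (k := k) τ) ≤
      RingHom.ker ((AdjoinRoot.mk p).comp (mapRingHom (evt (k := k) t))) := by
    intro q hq
    rw [RingHom.mem_ker] at hq ⊢
    obtain ⟨c, rfl⟩ := ev_ker (K := K) h hτ hq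
    simp only [RingHom.comp_apply, coe_mapRingHom, Polynomial.map_mul, map_mul]
    rw [AdjoinRoot.mk_eq_zero.2 hp, zero_mul]
  refine ⟨(ev (k := k) τ).liftOfSurjective (ev_surj (K := K) hI h hsq hτ) ⟨_, hk⟩, fun q => ?_⟩
  rw [RingHom.liftOfRightInverse_comp_apply]
  rfl

theorem ev_C (τ : O) (c : k[X]) : ev τ (C c) = algebraMap k[X] O c := by simp [ev]

/-- Every factor belongs to a prime over `Q`. -/
theorem ex_prime (hI : S_INT) (h : IsGen g K f θ) (hsq : Squarefree (dsc g f)) {τ : O}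
    (hτ : algebraMap O L τ = θ) {p : F[X]}
    (hp : p ∈ normalizedFactors (f.map (evt (k := k) t))) :
    ∃ 𝔓 : HeightOneSpectrum O, Ov (minpoly k t) 𝔓 ∧ Rl (k := k) O τ t p 𝔓 := by
  have hfm : (f.map (evt (k := k) t)).Monic := h.mon.map _
  obtain ⟨hpi, hpmon, hpd⟩ := (Polynomial.mem_normalizedFactors_iff hfm.ne_zero).1 hp
  haveI : Module.Finite k F := Module.Finite.of_finite
  haveI : Fact (Irreducible p) := ⟨hpi⟩
  obtain ⟨ψ, hψ⟩ := ex_psiF (K := K) hI h hsq hτ p hpd
  have hQ : ψ (algebraMap k[X] O (minpoly k t)) = 0 := by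
    rw [← ev_C τ, hψ, Polynomial.map_C, evt_apply, minpoly.aeval, C_0, map_zero]
  have hne : RingHom.ker ψ ≠ ⊥ := by
    intro h0
    have h1 : algebraMap k[X] O (minpoly k t) ∈ RingHom.ker ψ := hQ
    rw [h0, Ideal.mem_bot] at h1
    have h2 : minpoly k t = 0 := injO K L O (by rw [h1, map_zero])
    exact minpoly.ne_zero (IsIntegral.of_finite k t) h2
  refine ⟨⟨RingHom.ker ψ, RingHom.ker_isPrime ψ, hne⟩, hQ, fun q => ?_⟩
  change ψ (ev τ q) = 0 ↔ _
  rw [hψ, AdjoinRoot.mk_eq_zero]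

/-- A prime is determined by its factor. -/
theorem uniq_prime (hI : S_INT) (h : IsGen g K f θ) (hsq : Squarefree (dsc g f)) {τ : O}
    (hτ : algebraMap O L τ = θ) {p : F[X]} {𝔓 𝔓' : HeightOneSpectrum O}
    (h1 : Rl (k := k) O τ t p 𝔓) (h2 : Rl (k := k) O τ t p 𝔓') : 𝔓 = 𝔓' := by
  apply HeightOneSpectrum.ext
  ext z
  obtain ⟨q, rfl⟩ := ev_surj (K := K) hI h hsq hτ z
  rw [h1 q, h2 q]

theorem uniq_p (ht : (minpoly k t).natDegree = Module.finrank k F) {τ : O} {p p' : F[X]}
    (hp : p.Monic) (hp' : p'.Monic) {𝔓 : HeightOneSpectrum O}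
    (h1 : Rl (k := k) O τ t p 𝔓) (h2 : Rl (k := k) O τ t p' 𝔓) : p = p' := by
  obtain ⟨q, hq⟩ := map_evt_surj (k := k) ht p
  obtain ⟨q', hq'⟩ := map_evt_surj (k := k) ht p'
  have e1 : p' ∣ p := by
    have := (h2 q).1 ((h1 q).2 (by rw [hq]))
    rwa [hq] at this
  have e2 : p ∣ p' := by
    have := (h1 q').1 ((h2 q').2 (by rw [hq']))
    rwa [hq'] at this
  exact eq_of_monic_of_associated hp hp' (associated_of_dvd_dvd e2 e1)

/-- Squares at a prime. -/
theorem sq1_rl (hI : S_INT) (h : IsGen g K f θ) (hsq : Squarefree (dsc g f)) {τ : O}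
    (hτ : algebraMap O L τ = θ) (ht : (minpoly k t).natDegree = Module.finrank k F)
    {p : F[X]} {𝔓 : HeightOneSpectrum O} (h1 : Rl (k := k) O τ t p 𝔓) {q : k[X][X]}
    (hq : ¬ p ∣ q.map (evt (k := k) t)) :
    𝔓.valuation L (algebraMap O L (ev τ q)) = 1 ∧
    (Sq1 𝔓 (algebraMap O L (ev τ q)) ↔ ∃ s : F[X], p ∣ q.map (evt (k := k) t) - s ^ 2) := by
  have hv : 𝔓.valuation L (algebraMap O L (ev τ q)) = 1 :=
    𝔓.valuation_eq_one_iff_notMem.mpr fun h2 => hq ((h1 q).1 h2)
  refine ⟨hv, ?_, ?_⟩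
  · rintro ⟨s, hs⟩
    rw [hv] at hs
    have hs1 : 𝔓.valuation L s ≤ 1 := by
      by_contra hgt
      push Not at hgt
      have h3 : 𝔓.valuation L (algebraMap O L (ev τ q)) < 𝔓.valuation L (s ^ 2) := by
        rw [hv, map_pow]
        exact one_lt_pow' hgt (by norm_num)
      have h4 : 𝔓.valuation L (algebraMap O L (ev τ q) - s ^ 2) = 𝔓.valuation L (s ^ 2) := by
        rw [Valuation.map_sub_swap]
        exact Valuation.map_sub_eq_of_lt_left _ h3
      rw [h4] at hs
      exact absurd (hv ▸ h3) (not_lt.mpr hs.le)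
    obtain ⟨z, hz⟩ := 𝔓.exists_valuation_sub_lt_of_integer hs1 1
    rw [Units.val_one] at hz
    have hyz : ev τ q - z ^ 2 ∈ 𝔓.asIdeal := by
      rw [← 𝔓.valuation_lt_one_iff_mem (K := L)]
      change 𝔓.valuation L (algebraMap O L (ev τ q - z ^ 2)) < 1
      have e : algebraMap O L (ev τ q - z ^ 2) = (algebraMap O L (ev τ q) - s ^ 2) -
          (algebraMap O L z - s) * (algebraMap O L z + s) := by
        rw [map_sub, map_pow]
        ring
      rw [e]
      refine Valuation.map_sub_lt _ hs ?_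
      rw [map_mul]
      have h5 : 𝔓.valuation L (algebraMap O L z + s) ≤ 1 :=
        Valuation.map_add_le _ (𝔓.valuation_le_one _) hs1
      calc 𝔓.valuation L (algebraMap O L z - s) * 𝔓.valuation L (algebraMap O L z + s)
          ≤ 𝔓.valuation L (algebraMap O L z - s) * 1 := mul_le_mul_right h5 _
        _ = 𝔓.valuation L (algebraMap O L z - s) := mul_one _
        _ < 1 := hz
    obtain ⟨w, rfl⟩ := ev_surj (K := K) hI h hsq hτ z
    rw [← map_pow, ← map_sub, h1, Polynomial.map_sub, Polynomial.map_pow] at hyz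
    exact ⟨_, hyz⟩
  · rintro ⟨s, hs⟩
    obtain ⟨w, rfl⟩ := map_evt_surj (k := k) ht s
    refine ⟨algebraMap O L (ev τ w), ?_⟩
    rw [hv, ← map_pow, ← map_sub, ← map_pow, ← map_sub]
    refine (𝔓.valuation_lt_one_iff_mem (K := L) _).mpr ?_
    rw [h1, Polynomial.map_sub, Polynomial.map_pow]
    exact hs

/-- The polynomial `f` at `t` is squarefree. -/
theorem sqf_at (h : IsGen g K f θ) (hd : ¬ minpoly k t ∣ dsc g f) :
    Squarefree (f.map (evt (k := k) t)) := by
  have hfm : (f.map (evt (k := k) t)).Monic := h.mon.map _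
  have hfd : (f.map (evt (k := k) t)).natDegree = 2 * g + 1 := by
    rw [h.mon.natDegree_map, h.deg]
  have h0 : aeval t (dsc g f) ≠ 0 := fun h0 => hd ((ker_pt t _).1 h0)
  have h1 : evt (k := k) t (dsc g f) = (f.map (evt (k := k) t)).resultant
      (derivative (f.map (evt (k := k) t))) (2 * g + 1) (2 * g) := by
    unfold dsc
    rw [← resultant_map_map, derivative_map]
  have hdeg : (derivative (f.map (evt (k := k) t))).natDegree ≤ 2 * g := by
    refine (natDegree_derivative_le _).trans ?_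
    omega
  have h1' : (f.map (evt (k := k) t)).resultant (derivative (f.map (evt (k := k) t)))
      (2 * g + 1) (2 * g) ≠ 0 := by
    rw [← h1]
    exact h0
  have h2 : (f.map (evt (k := k) t)).resultant (derivative (f.map (evt (k := k) t))) ≠ 0 := by
    intro h0
    apply h1'
    obtain ⟨j, hj⟩ := Nat.exists_eq_add_of_le hdeg
    have h5 := resultant_add_right_deg (f.map (evt (k := k) t))
      (derivative (f.map (evt (k := k) t))) (2 * g + 1)
      (derivative (f.map (evt (k := k) t))).natDegree j le_rfl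
    rw [← hj, ← hfd, h0, mul_zero] at h5
    rw [← hfd, h5]
  have h3 := mt resultant_eq_zero_iff.2 h2
  rw [not_and, not_not] at h3
  exact Polynomial.Separable.squarefree (h3 (Or.inl hfm.ne_zero))

end prm

end Run7.h973.TG
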